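import Pool.Agent.Helper74.HG.GoalsB

/-! # Packet HG-BLF: the Bernstein-Sato polynomial of `l f`, `l` a new variable -/

namespace Pool.Agent.Helper13.HG.BLF

open MvPolynomial Pool.Agent.Helper74.HG

/-- `P` has a lift to the variables `some x` -/
def Lift {σ : Type} (P : ℂ → Module.End ℂ (MvPolynomial σ ℂ)) : Prop :=
  ∃ P' ∈ DS (Option σ), ∀ (s : ℂ) (p : MvPolynomial σ ℂ) (q : MvPolynomial (Option σ) ℂ),
    (∀ x, pderiv (some x) q = 0) →
      P' s (rename some p * q) = rename some (P s p) * q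

theorem lift {σ : Type} (P : ℂ → Module.End ℂ (MvPolynomial σ ℂ)) (hP : P ∈ DS σ) : Lift P := by
  have hinj : Function.Injective (some : σ → Option σ) := Option.some_injective σ
  unfold DS at hP
  induction hP using Algebra.adjoin_induction with
  | mem P hP =>
    rcases hP with (⟨x, rfl⟩ | ⟨x, rfl⟩) | h
    · refine ⟨fun _ : ℂ => LinearMap.mulLeft ℂ (X (some x) : MvPolynomial (Option σ) ℂ),
        Algebra.subset_adjoin (Or.inl (Or.inl ⟨some x, rfl⟩)), fun s p q _ => ?_⟩
      simp only [LinearMap.mulLeft_apply, map_mul, rename_X]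
      ring
    · refine ⟨fun _ : ℂ => ((pderiv (some x) : Derivation ℂ (MvPolynomial (Option σ) ℂ)
          (MvPolynomial (Option σ) ℂ)) : MvPolynomial (Option σ) ℂ →ₗ[ℂ] MvPolynomial (Option σ) ℂ),
        Algebra.subset_adjoin (Or.inl (Or.inr ⟨some x, rfl⟩)), fun s p q hq => ?_⟩
      simp only [Derivation.coeFn_coe]
      rw [Derivation.leibniz, hq x, smul_zero, zero_add, smul_eq_mul, mul_comm]
      congr 1
      exact pderiv_rename hinj x p
    · rw [Set.mem_singleton_iff] at h
      subst h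
      refine ⟨fun s : ℂ => s • (1 : Module.End ℂ (MvPolynomial (Option σ) ℂ)),
        Algebra.subset_adjoin (Or.inr rfl), fun s p q _ => ?_⟩
      simp only [LinearMap.smul_apply, Module.End.one_apply, map_smul, smul_mul_assoc]
  | algebraMap c =>
    refine ⟨algebraMap ℂ _ c, Subalgebra.algebraMap_mem _ c, fun s p q _ => ?_⟩
    simp only [Pi.algebraMap_apply, Module.algebraMap_end_apply, map_smul, smul_mul_assoc]
  | add P Q _ _ h1 h2 =>
    obtain ⟨P', hP', h1⟩ := h1
    obtain ⟨Q', hQ', h2⟩ := h2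
    refine ⟨P' + Q', Subalgebra.add_mem _ hP' hQ', fun s p q hq => ?_⟩
    simp only [Pi.add_apply, LinearMap.add_apply, map_add]
    rw [h1 s p q hq, h2 s p q hq, add_mul]
  | mul P Q _ _ h1 h2 =>
    obtain ⟨P', hP', h1⟩ := h1
    obtain ⟨Q', hQ', h2⟩ := h2
    refine ⟨P' * Q', Subalgebra.mul_mem _ hP' hQ', fun s p q hq => ?_⟩
    simp only [Pi.mul_apply, Module.End.mul_apply]
    rw [h2 s p q hq, h1 s _ q hq]

theorem pd_none {σ : Type} (g : MvPolynomial σ ℂ) :
    pderiv none (rename (some : σ → Option σ) g) = 0 := by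
  classical
  apply pderiv_eq_zero_of_notMem_vars
  intro h
  have h1 := vars_rename (some : σ → Option σ) g h
  rw [Finset.mem_image] at h1
  obtain ⟨y, -, hy⟩ := h1
  exact Option.some_ne_none y hy

theorem pd_some {σ : Type} (x : σ) (n : ℕ) :
    pderiv (some x) ((X none : MvPolynomial (Option σ) ℂ) ^ n) = 0 := by
  rw [Derivation.leibniz_pow, pderiv_X_of_ne (Option.some_ne_none x).symm, smul_zero, smul_zero]

theorem t : Pool.Agent.Helper74.HG.BLF := by
  intro σ _ f b hb
  obtain ⟨P, hP, h, hh, hN⟩ := hb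
  obtain ⟨P', hP', hL⟩ := lift P hP
  refine ⟨P' * (fun _ : ℂ => ((pderiv none : Derivation ℂ (MvPolynomial (Option σ) ℂ)
      (MvPolynomial (Option σ) ℂ)) : MvPolynomial (Option σ) ℂ →ₗ[ℂ] MvPolynomial (Option σ) ℂ)),
    Subalgebra.mul_mem _ hP' (Algebra.subset_adjoin (Or.inl (Or.inr ⟨none, rfl⟩))),
    rename some h, by rwa [constantCoeff_rename], fun N => ?_⟩
  rw [Pi.mul_apply, Module.End.mul_apply, Derivation.coeFn_coe]
  have e1 : lf f ^ (N + 1) = rename some (f ^ (N + 1)) * X none ^ (N + 1) := by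
    unfold lf
    rw [mul_pow, map_pow, mul_comm]
  have e2 : pderiv none (lf f ^ (N + 1)) =
      rename some (f ^ (N + 1)) * (C ((N : ℂ) + 1) * X none ^ N) := by
    rw [e1, Derivation.leibniz, pd_none, smul_zero, add_zero, Derivation.leibniz_pow,
      pderiv_X_self, smul_eq_mul, Nat.add_sub_cancel, smul_eq_mul, mul_one, nsmul_eq_mul]
    congr 2
    push_cast
    simp
  have hq : ∀ x : σ, pderiv (some x)
      (C ((N : ℂ) + 1) * (X none : MvPolynomial (Option σ) ℂ) ^ N) = 0 := by
    intro x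
    rw [Derivation.leibniz, pd_some, pderiv_C, smul_zero, smul_zero, add_zero]
  rw [e2, hL (N : ℂ) _ _ hq, hN N]
  unfold lf
  rw [Polynomial.eval_mul, Polynomial.eval_add, Polynomial.eval_X, Polynomial.eval_one]
  simp only [map_mul, map_pow, rename_C]
  ring

end Pool.Agent.Helper13.HG.BLF
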